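import Mathlib

set_option autoImplicit false
set_option linter.unusedSectionVars false

namespace Pool.Agent.Results.MP_104832_co.NoOrder

open Finset

/-- `D` is a planar difference set of order `n` in `G`: it has `n + 1` elements and every nonzero
element of `G` is a difference `d - d'` with `d, d' ∈ D` in exactly one way. (The condition
`|G| = n^2 + n + 1` is a separate hypothesis of the theorem.) -/
def IsPlanarDifferenceSet {G : Type*} [AddCommGroup G] (D : Finset G) (n : ℕ) : Prop :=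
  D.card = n + 1 ∧ ∀ g : G, g ≠ 0 → ∃! x : G × G, x.1 ∈ D ∧ x.2 ∈ D ∧ x.1 - x.2 = g

/-- planar difference set axioms, in a convenient form -/
structure PDS {G : Type*} [AddCommGroup G] (D : Finset G) (n : ℕ) : Prop where
  card : D.card = n + 1
  ex : ∀ g : G, g ≠ 0 → ∃ a ∈ D, ∃ b ∈ D, a - b = g
  uniq : ∀ a ∈ D, ∀ b ∈ D, ∀ c ∈ D, ∀ d ∈ D, a - b = c - d → a ≠ b → a = c ∧ b = d

section count
variable {G : Type*} [AddCommGroup G] [Fintype G] [DecidableEq G] {D : Finset G} {n : ℕ}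

lemma PDS.count_ne (h : PDS D n) (g : G) (hg : g ≠ 0) :
    ((D ×ˢ D).filter (fun x => x.1 - x.2 = g)).card = 1 := by
  obtain ⟨a, ha, b, hb, hab⟩ := h.ex g hg
  rw [Finset.card_eq_one]
  refine ⟨(a, b), ?_⟩
  ext ⟨c, d⟩
  simp only [mem_filter, mem_product, mem_singleton, Prod.mk.injEq]
  constructor
  · rintro ⟨⟨hc, hd⟩, hcd⟩
    have hne : a ≠ b := by
      rintro rfl
      apply hg; rw [← hab, sub_self]
    obtain ⟨h1, h2⟩ := h.uniq a ha b hb c hc d hd (by rw [hab, hcd]) hne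
    exact ⟨h1.symm, h2.symm⟩
  · rintro ⟨rfl, rfl⟩
    exact ⟨⟨ha, hb⟩, hab⟩

lemma PDS.count_zero (h : PDS D n) :
    ((D ×ˢ D).filter (fun x => x.1 - x.2 = 0)).card = n + 1 := by
  rw [← h.card]
  apply Finset.card_bij (fun x _ => x.1)
  · intro x hx
    simp only [mem_filter, mem_product] at hx
    exact hx.1.1
  · intro x hx y hy hxy
    simp only [mem_filter, mem_product] at hx hy
    have h1 := sub_eq_zero.mp hx.2
    have h2 := sub_eq_zero.mp hy.2
    exact Prod.ext hxy (by rw [← h1, ← h2]; exact hxy)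
  · intro a ha
    exact ⟨(a, a), by simp [ha], rfl⟩

/-- the number of representations `r d - d' = g` -/
def N (D : Finset G) (r : ℕ) (g : G) : ℕ := ((D ×ˢ D).filter (fun x => r • x.1 - x.2 = g)).card

open AddMonoidAlgebra in
lemma PDS.N_mod (h : PDS D n) (r : ℕ) [Fact r.Prime] (hr : r ∣ n) (g : G) :
    ((N D r g : ℕ) : ZMod r) = 1 := by
  obtain ⟨a, ha⟩ : ∃ a : AddMonoidAlgebra (ZMod r) G, a = ∑ d ∈ D, single d 1 := ⟨_, rfl⟩
  obtain ⟨b, hb⟩ : ∃ b : AddMonoidAlgebra (ZMod r) G, b = ∑ d ∈ D, single (-d) 1 := ⟨_, rfl⟩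
  obtain ⟨T, hT⟩ : ∃ T : AddMonoidAlgebra (ZMod r) G, T = ∑ d : G, single d 1 := ⟨_, rfl⟩
  have hn0 : (n : ZMod r) = 0 := (ZMod.natCast_eq_zero_iff n r).mpr hr
  have hTc : ∀ g : G, T.coeff g = 1 := by
    intro g
    rw [hT, coeff_sum, Finsupp.finsetSum_apply]
    simp [coeff_single, Finsupp.single_apply]
  -- a * b
  have hab : a * b = T := by
    apply coeff_injective
    ext g
    rw [hTc, ha, hb, Finset.sum_mul_sum, ← Finset.sum_product', coeff_sum, Finsupp.finsetSum_apply]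
    simp only [single_mul_single, mul_one, coeff_single, Finsupp.single_apply]
    rw [Finset.sum_boole]
    simp only [← sub_eq_add_neg]
    by_cases hg : g = 0
    · subst hg
      rw [h.count_zero]; push_cast; rw [hn0]; simp
    · rw [h.count_ne g hg]; simp
  have haT : a * T = T := by
    rw [ha, hT, Finset.sum_mul]
    have : ∀ d ∈ D, (single d 1 : AddMonoidAlgebra (ZMod r) G) * ∑ g : G, single g 1
        = ∑ g : G, single g 1 := by
      intro d _
      rw [Finset.mul_sum]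
      simp only [single_mul_single, mul_one]
      exact Fintype.sum_equiv (Equiv.addLeft d) _ _ (fun x => rfl)
    rw [Finset.sum_congr rfl this, Finset.sum_const, h.card]
    rw [← hT, ← Nat.cast_smul_eq_nsmul (ZMod r)]
    push_cast
    rw [hn0, zero_add, one_smul]
  have hakT : ∀ k, a ^ k * T = T := by
    intro k
    induction k with
    | zero => simp
    | succ k ih => rw [pow_succ, mul_assoc, haT, ih]
  have hchar : CharP (AddMonoidAlgebra (ZMod r) G) r := by
    refine charP_of_injective_algebraMap (R := ZMod r) ?_ r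
    exact (algebraMap (ZMod r) (AddMonoidAlgebra (ZMod r) G)).injective
  have har : a ^ r = ∑ d ∈ D, single (r • d) 1 := by
    rw [ha, sum_pow_char]
    refine Finset.sum_congr rfl (fun d _ => ?_)
    rw [single_pow, one_pow]
  have hmain : a ^ r * b = T := by
    have hr0 : r ≠ 0 := (Fact.out : r.Prime).ne_zero
    have e1 : a ^ r = a ^ (r - 1) * a := (pow_sub_one_mul hr0 a).symm
    rw [e1, mul_assoc, hab, hakT]
  have h2 : (a ^ r * b).coeff g = 1 := by rw [hmain, hTc]
  rw [har, hb, Finset.sum_mul_sum, ← Finset.sum_product', coeff_sum, Finsupp.finsetSum_apply] at h2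
  simp only [single_mul_single, mul_one, coeff_single, Finsupp.single_apply] at h2
  rw [Finset.sum_boole] at h2
  simp only [← sub_eq_add_neg] at h2
  exact h2


lemma sum_N (D : Finset G) (r : ℕ) : ∑ g, N D r g = D.card * D.card := by
  rw [← Finset.card_product]
  exact (Finset.card_eq_sum_card_fiberwise (f := fun x : G × G => r • x.1 - x.2)
    (s := D ×ˢ D) (t := Finset.univ) (fun x _ => by simp)).symm

/-- multiplication by `r` is injective when `r ∣ n` and `|G| = n^2+n+1` -/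
lemma smul_eq_zero_of_dvd {r : ℕ} (hG : Fintype.card G = n ^ 2 + n + 1) (hr : r ∣ n) (g : G)
    (hg : r • g = 0) : g = 0 := by
  obtain ⟨s, hs⟩ := hr
  have h1 : (Fintype.card G) • g = 0 := card_nsmul_eq_zero
  rw [hG] at h1
  have h2 : n • g = 0 := by rw [hs, mul_comm, mul_smul, hg, smul_zero]
  have h3 : (n ^ 2) • g = 0 := by rw [pow_two, mul_smul, h2, smul_zero]
  rw [add_smul, add_smul, h2, h3] at h1
  simpa using h1

lemma PDS.sum_N_sq (h : PDS D n) {r : ℕ} (hG : Fintype.card G = n ^ 2 + n + 1) (hr : r ∣ n) :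
    ∑ g, N D r g * N D r g = (n + 1) * (n + 1) + (n + 1) * n := by
  have h1 : ∑ g, N D r g * N D r g = ∑ x ∈ D ×ˢ D, N D r (r • x.1 - x.2) := by
    have : ∀ g, N D r g * N D r g
        = ∑ x ∈ (D ×ˢ D).filter (fun x => r • x.1 - x.2 = g), N D r (r • x.1 - x.2) := by
      intro g
      rw [Finset.sum_congr rfl (g := fun _ => N D r g)]
      · rw [Finset.sum_const, smul_eq_mul]; rfl
      · intro x hx
        simp only [mem_filter] at hx
        rw [hx.2]
    rw [Finset.sum_congr rfl (fun g _ => this g)]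
    exact Finset.sum_fiberwise_of_maps_to (s := D ×ˢ D) (t := Finset.univ)
      (g := fun x : G × G => r • x.1 - x.2) (fun x _ => by simp) _
  have h2 : ∑ x ∈ D ×ˢ D, N D r (r • x.1 - x.2) = ∑ a ∈ D, ∑ c ∈ D,
      ((D ×ˢ D).filter (fun y => y.1 - y.2 = r • c - r • a)).card := by
    have e1 : ∀ x : G × G, N D r (r • x.1 - x.2) = ∑ c ∈ D, ∑ d ∈ D,
        if r • c - d = r • x.1 - x.2 then 1 else 0 := by
      intro x
      unfold N
      rw [Finset.card_filter, Finset.sum_product]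
    have e2 : ∀ a c : G, ((D ×ˢ D).filter (fun y => y.1 - y.2 = r • c - r • a)).card =
        ∑ b ∈ D, ∑ d ∈ D, if r • c - d = r • a - b then 1 else 0 := by
      intro a c
      rw [Finset.card_filter, Finset.sum_product, Finset.sum_comm]
      refine Finset.sum_congr rfl (fun b _ => Finset.sum_congr rfl (fun d _ => ?_))
      have : (d - b = r • c - r • a) ↔ (r • c - d = r • a - b) := by
        constructor
        · intro h
          have : r • c = (d - b) + r • a := by rw [h]; abel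
          rw [this]; abel
        · intro h
          have : r • c = (r • a - b) + d := by rw [← h]; abel
          rw [this]; abel
      simp only [this]
    rw [Finset.sum_product]
    refine Finset.sum_congr rfl (fun a _ => ?_)
    simp only [e2]
    rw [Finset.sum_comm]
    exact Finset.sum_congr rfl (fun b _ => e1 (a, b))
  rw [h1, h2]
  have h3 : ∀ a ∈ D, ∑ c ∈ D, ((D ×ˢ D).filter (fun y => y.1 - y.2 = r • c - r • a)).card
      = (n + 1) + n := by
    intro a ha
    rw [← Finset.add_sum_erase D _ ha]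
    congr 1
    · rw [sub_self]; exact h.count_zero
    · have : ∀ c ∈ D.erase a,
          ((D ×ˢ D).filter (fun y => y.1 - y.2 = r • c - r • a)).card = 1 := by
        intro c hc
        apply h.count_ne
        intro h0
        rw [← smul_sub] at h0
        have := smul_eq_zero_of_dvd hG hr _ h0
        exact (Finset.ne_of_mem_erase hc) (sub_eq_zero.mp this)
      rw [Finset.sum_congr rfl this, Finset.sum_const, smul_eq_mul, mul_one,
        Finset.card_erase_of_mem ha, h.card]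
      rfl
  rw [Finset.sum_congr rfl h3, Finset.sum_const, h.card, smul_eq_mul]
  ring

lemma PDS.exists_N (h : PDS D n) {r : ℕ} (hp : r.Prime) (hn : 0 < n)
    (hG : Fintype.card G = n ^ 2 + n + 1) (hr : r ∣ n) : ∃ g, n + 1 ≤ N D r g := by
  have : Fact r.Prime := ⟨hp⟩
  by_contra hcon
  push Not at hcon
  have h1 : ∀ g, 1 ≤ N D r g := by
    intro g
    have := h.N_mod r hr g
    by_contra h0
    have h0' : N D r g = 0 := by omega
    rw [h0'] at this
    simp at this
  have hs1 := sum_N D r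
  have hs2 := h.sum_N_sq hG hr
  rw [h.card] at hs1
  have h4 : ∑ g, N D r g * N D r g ≤ ∑ g : G, (n * (N D r g - 1) + N D r g) := by
    refine Finset.sum_le_sum (fun g _ => ?_)
    obtain ⟨k, hk⟩ : ∃ k, N D r g = k + 1 := ⟨N D r g - 1, by have := h1 g; omega⟩
    have := hcon g
    rw [hk] at this ⊢
    simp only [Nat.add_sub_cancel]
    nlinarith
  rw [Finset.sum_add_distrib, ← Finset.mul_sum] at h4
  have h5 : ∑ g : G, (N D r g - 1) = n := by
    have : ∑ g : G, (N D r g - 1) + ∑ g : G, 1 = ∑ g, N D r g := by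
      rw [← Finset.sum_add_distrib]
      refine Finset.sum_congr rfl (fun g _ => ?_)
      have := h1 g; omega
    rw [hs1, Finset.sum_const, Finset.card_univ, hG, smul_eq_mul, mul_one] at this
    nlinarith
  rw [h5, hs2, hs1] at h4
  nlinarith

/-- the multiplier theorem for planar abelian difference sets -/
lemma PDS.multiplier (h : PDS D n) {r : ℕ} (hp : r.Prime) (hn : 0 < n)
    (hG : Fintype.card G = n ^ 2 + n + 1) (hr : r ∣ n) : ∃ g, ∀ d ∈ D, r • d - g ∈ D := by
  obtain ⟨g, hg⟩ := h.exists_N hp hn hG hr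
  refine ⟨g, ?_⟩
  have h1 : (((D ×ˢ D).filter (fun x => r • x.1 - x.2 = g)).image Prod.fst) = D := by
    apply Finset.eq_of_subset_of_card_le
    · intro x hx
      simp only [mem_image, mem_filter, mem_product] at hx
      obtain ⟨y, hy, rfl⟩ := hx
      exact hy.1.1
    · rw [Finset.card_image_of_injOn, h.card]
      · exact hg
      · intro x hx y hy hxy
        simp only [coe_filter, mem_product, Set.mem_ofPred_eq] at hx hy
        refine Prod.ext hxy ?_
        have e1 : x.2 = r • x.1 - g := by rw [← hx.2]; abel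
        have e2 : y.2 = r • y.1 - g := by rw [← hy.2]; abel
        rw [e1, e2, hxy]
  intro d hd
  rw [← h1] at hd
  simp only [mem_image, mem_filter, mem_product] at hd
  obtain ⟨y, hy, rfl⟩ := hd
  have e1 : y.2 = r • y.1 - g := by rw [← hy.2]; abel
  rw [← e1]
  exact hy.1.2


/-- translate normalised by the sum of its elements -/
lemma PDS.normalise (h : PDS D n) (hG : Fintype.card G = n ^ 2 + n + 1) :
    ∃ D' : Finset G, PDS D' n ∧ ∑ d ∈ D', d = 0 := by
  obtain ⟨x, hx⟩ : ∃ x : G, x = n • ∑ d ∈ D, d := ⟨_, rfl⟩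
  refine ⟨D.map (addRightEmbedding x), ⟨?_, ?_, ?_⟩, ?_⟩
  · rw [Finset.card_map, h.card]
  · intro g hg
    obtain ⟨a, ha, b, hb, hab⟩ := h.ex g hg
    refine ⟨a + x, ?_, b + x, ?_, ?_⟩
    · simp only [mem_map, addRightEmbedding_apply]; exact ⟨a, ha, rfl⟩
    · simp only [mem_map, addRightEmbedding_apply]; exact ⟨b, hb, rfl⟩
    · rw [← hab]; abel
  · intro a ha b hb c hc d hd habcd hne
    simp only [mem_map, addRightEmbedding_apply] at ha hb hc hd
    obtain ⟨a', ha', rfl⟩ := ha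
    obtain ⟨b', hb', rfl⟩ := hb
    obtain ⟨c', hc', rfl⟩ := hc
    obtain ⟨d', hd', rfl⟩ := hd
    have e1 : a' - b' = c' - d' := by
      have : (a' + x) - (b' + x) = a' - b' := by abel
      rw [← this, habcd]; abel
    have hne' : a' ≠ b' := fun h => hne (by rw [h])
    obtain ⟨h1, h2⟩ := h.uniq a' ha' b' hb' c' hc' d' hd' e1 hne'
    exact ⟨by rw [h1], by rw [h2]⟩
  · rw [Finset.sum_map]
    simp only [addRightEmbedding_apply]
    rw [Finset.sum_add_distrib, Finset.sum_const, h.card, hx, ← mul_smul]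
    have h1 : (Fintype.card G) • (∑ d ∈ D, d) = 0 := card_nsmul_eq_zero
    rw [hG] at h1
    have h2 : n ^ 2 + n + 1 = 1 + (n + 1) * n := by ring
    rw [h2, add_smul, one_smul] at h1
    exact h1

lemma PDS.fixed (h : PDS D n) (h0 : ∑ d ∈ D, d = 0) {r : ℕ} (hp : r.Prime) (hn : 0 < n)
    (hG : Fintype.card G = n ^ 2 + n + 1) (hr : r ∣ n) : ∀ d ∈ D, r • d ∈ D := by
  obtain ⟨g, hg⟩ := h.multiplier hp hn hG hr
  have hinj : Set.InjOn (fun d : G => r • d - g) D := by
    intro x _ y _ hxy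
    have h1 : r • x - g = r • y - g := hxy
    have h2 : r • (x - y) = 0 := by
      rw [smul_sub, sub_eq_zero]; exact sub_left_injective h1
    exact sub_eq_zero.mp (smul_eq_zero_of_dvd hG hr _ h2)
  have himg : D.image (fun d : G => r • d - g) = D := by
    apply Finset.eq_of_subset_of_card_le
    · intro x hx
      simp only [mem_image] at hx
      obtain ⟨y, hy, rfl⟩ := hx
      exact hg y hy
    · rw [Finset.card_image_of_injOn hinj]
  have hsum : ∑ d ∈ D, (r • d - g) = 0 := by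
    have : ∑ d ∈ D.image (fun d : G => r • d - g), d = ∑ d ∈ D, (r • d - g) :=
      Finset.sum_image hinj
    rw [← this, himg, h0]
  rw [Finset.sum_sub_distrib, ← Finset.smul_sum, h0, smul_zero, Finset.sum_const, h.card,
    zero_sub, neg_eq_zero] at hsum
  have hg0 : g = 0 := by
    have h1 : (Fintype.card G) • g = 0 := card_nsmul_eq_zero
    rw [hG] at h1
    have h2 : n ^ 2 + n + 1 = 1 + n * (n + 1) := by ring
    rw [h2, add_smul, one_smul, mul_smul, hsum, smul_zero, add_zero] at h1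
    exact h1
  intro d hd
  have := hg d hd
  rwa [hg0, sub_zero] at this

lemma PDS.fixed_dvd (h : PDS D n) (h0 : ∑ d ∈ D, d = 0) (hn : 0 < n)
    (hG : Fintype.card G = n ^ 2 + n + 1) (t : ℕ) : t ∣ n → ∀ d ∈ D, t • d ∈ D := by
  induction t using Nat.recOnMul with
  | zero =>
    intro ht
    have := Nat.eq_zero_of_zero_dvd ht
    omega
  | one => intro _ d hd; rwa [one_smul]
  | prime p hp => intro ht; exact h.fixed h0 hp hn hG ht
  | mul a b iha ihb =>
    intro ht d hd
    rw [mul_smul]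
    exact iha (dvd_of_mul_right_dvd ht) _ (ihb (dvd_of_mul_left_dvd ht) d hd)

/-- parity: for `e` with `-e ∉ D`, the number of `d ∈ D` with `e + 2 d ∈ D` is even when `n` is odd -/
lemma PDS.parity (h : PDS D n) (hn : n % 2 = 1) (e : G) (he : -e ∉ D) :
    Even ((D.filter (fun d => e + d + d ∈ D)).card) := by
  have h1 : ((D ×ˢ D).filter (fun x => e + x.1 + x.2 ∈ D)).card = n + 1 := by
    rw [← h.card, Finset.card_filter, Finset.sum_product]
    rw [Finset.card_eq_sum_ones]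
    refine Finset.sum_congr rfl (fun a ha => ?_)
    have hne : e + a ≠ 0 := by
      intro h0
      apply he
      have : -e = a := neg_eq_of_add_eq_zero_right h0
      rwa [this]
    obtain ⟨c, hc, b, hb, hcb⟩ := h.ex _ hne
    rw [Finset.sum_eq_single b]
    · have : e + a + b = c := by rw [← hcb]; abel
      simp [this, hc]
    · intro b' hb' hbb
      simp only
      rw [if_neg]
      intro hc'
      have := h.uniq c hc b hb (e + a + b') hc' b' hb' (by rw [hcb]; abel)
        (by rintro rfl; apply hne; rw [← hcb, sub_self])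
      exact hbb this.2.symm
    · intro hb'; exact absurd hb hb'
  -- split into diagonal and off-diagonal
  have h2 : ((D ×ˢ D).filter (fun x => e + x.1 + x.2 ∈ D)).card =
      (((D ×ˢ D).filter (fun x => e + x.1 + x.2 ∈ D)).filter (fun x => x.1 = x.2)).card +
      (((D ×ˢ D).filter (fun x => e + x.1 + x.2 ∈ D)).filter (fun x => ¬ x.1 = x.2)).card :=
    (Finset.card_filter_add_card_filter_not _).symm
  have h3 : (((D ×ˢ D).filter (fun x => e + x.1 + x.2 ∈ D)).filter (fun x => x.1 = x.2)).card =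
      (D.filter (fun d => e + d + d ∈ D)).card := by
    symm
    apply Finset.card_bij (fun d _ => (d, d))
    · intro d hd
      simp only [mem_filter] at hd
      simp [hd.1, hd.2]
    · intro a _ b _ hab
      exact (Prod.mk.inj hab).1
    · rintro ⟨a, b⟩ hab
      simp only [mem_filter, mem_product] at hab
      obtain ⟨⟨⟨ha, hb⟩, hab1⟩, rfl⟩ := hab
      exact ⟨a, by simp [ha, hab1], rfl⟩
  have h4 : Even (((D ×ˢ D).filter (fun x => e + x.1 + x.2 ∈ D)).filter
      (fun x => ¬ x.1 = x.2)).card := by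
    rw [← ZMod.natCast_eq_zero_iff_even, Finset.card_eq_sum_ones, Nat.cast_sum]
    simp only [Nat.cast_one]
    apply Finset.sum_involution (fun x _ => (x.2, x.1))
    · intro x _; decide
    · intro x hx _ heq
      simp only [mem_filter] at hx
      exact hx.2 (Prod.mk.inj heq).1.symm
    · intro x hx
      simp only [mem_filter, mem_product] at hx ⊢
      refine ⟨⟨⟨hx.1.1.2, hx.1.1.1⟩, ?_⟩, fun h => hx.2 h.symm⟩
      have : e + x.2 + x.1 = e + x.1 + x.2 := by abel
      rw [this]; exact hx.1.2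
    · intro x _; rfl
  rw [h1, h3] at h2
  rw [Nat.even_iff] at h4 ⊢
  omega


lemma two_smul_ne (hG : Fintype.card G = n ^ 2 + n + 1) (g : G) (hg : g ≠ 0) : g + g ≠ 0 := by
  intro h
  apply hg
  have h1 : (Fintype.card G) • g = 0 := card_nsmul_eq_zero
  have hev : n ^ 2 + n + 1 = (n * (n + 1) / 2) * 2 + 1 := by
    have := Nat.even_mul_succ_self n
    have h2 := Nat.div_mul_cancel this.two_dvd
    rw [h2]; ring
  rw [hG, hev, add_smul, mul_smul, two_smul ℕ g, h, smul_zero, zero_add, one_smul] at h1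
  exact h1

lemma PDS.zero_mem (h : PDS D n) (hodd : n % 2 = 1) (hn3 : 3 ≤ n)
    (hG : Fintype.card G = n ^ 2 + n + 1) (t : ℕ) (ht : t ∣ n)
    (h1 : ∀ d ∈ D, t • d ∈ D) (h2 : ∀ d ∈ D, (t + 2) • d ∈ D) : (0 : G) ∈ D := by
  by_contra h0
  -- choose e
  have hexists : ∃ e ∈ D, -e ∉ D := by
    by_contra hcon
    push Not at hcon
    have hne : D.Nonempty := by rw [← Finset.card_pos, h.card]; omega
    obtain ⟨e, he⟩ := hne
    have he0 : e ≠ 0 := fun h' => h0 (h' ▸ he)
    have hcard : ({e, -e} : Finset G).card < D.card := by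
      rw [h.card]
      have := Finset.card_le_two (a := e) (b := -e)
      omega
    obtain ⟨f, hf, hf'⟩ := Finset.exists_mem_notMem_of_card_lt_card hcard
    simp only [mem_insert, mem_singleton, not_or] at hf'
    have := h.uniq e he (-f) (hcon f hf) f hf (-e) (hcon e he) (by abel)
      (fun h' => hf'.2 (by rw [h', neg_neg]))
    exact hf'.1 this.1.symm
  obtain ⟨e, he, hne⟩ := hexists
  have he0 : e ≠ 0 := fun h' => h0 (h' ▸ he)
  have hpar := h.parity hodd e hne
  have hinj : Set.InjOn (fun d : G => t • d) D := by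
    intro x _ y _ hxy
    have h1 : t • x = t • y := hxy
    have h2 : t • (x - y) = 0 := by rw [smul_sub, sub_eq_zero]; exact h1
    exact sub_eq_zero.mp (smul_eq_zero_of_dvd hG ht _ h2)
  have himg : D.image (fun d : G => t • d) = D := by
    apply Finset.eq_of_subset_of_card_le
    · intro x hx
      simp only [mem_image] at hx
      obtain ⟨y, hy, rfl⟩ := hx
      exact h1 y hy
    · rw [Finset.card_image_of_injOn hinj]
  have he' := he
  rw [← himg] at he'
  simp only [mem_image] at he'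
  obtain ⟨d0, hd0, hd0e⟩ := he'
  have hS : D.filter (fun d => e + d + d ∈ D) = {d0} := by
    ext d
    simp only [mem_filter, mem_singleton]
    constructor
    · rintro ⟨hd, hed⟩
      have hd00 : d ≠ 0 := fun h' => h0 (h' ▸ hd)
      have e1 : (t + 2) • d - t • d = (e + d + d) - e := by
        rw [add_smul, two_smul]; abel
      have hne2 : (t + 2) • d ≠ t • d := by
        intro h'
        rw [add_smul, two_smul] at h'
        exact two_smul_ne hG d hd00 (by simpa using h')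
      have := h.uniq _ (h2 d hd) _ (h1 d hd) _ hed _ he e1 hne2
      apply hinj hd hd0
      show t • d = t • d0
      rw [this.2, hd0e]
    · rintro rfl
      refine ⟨hd0, ?_⟩
      have := h2 d hd0
      rw [add_smul, two_smul, hd0e, ← add_assoc] at this
      exact this
  rw [hS] at hpar
  simp at hpar

lemma PDS.three_dvd (h : PDS D n) (hn : 0 < n) (hG : Fintype.card G = n ^ 2 + n + 1)
    (h3 : ¬ 3 ∣ n ^ 2 + n + 1) (h0 : (0 : G) ∈ D) (h1 : ∀ d ∈ D, n • d ∈ D) : 3 ∣ n := by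
  have : Fact (Nat.Prime 3) := ⟨Nat.prime_three⟩
  have hc : Fintype.card {x // x ∈ D.erase 0} = n := by
    rw [Fintype.card_coe, Finset.card_erase_of_mem h0, h.card]; rfl
  have hmap : ∀ x ∈ D.erase 0, n • x ∈ D.erase 0 := by
    intro x hx
    rw [Finset.mem_erase] at hx ⊢
    exact ⟨fun h' => hx.1 (smul_eq_zero_of_dvd hG dvd_rfl _ h'), h1 x hx.2⟩
  let f : {x // x ∈ D.erase 0} → {x // x ∈ D.erase 0} := fun x => ⟨n • x.1, hmap x.1 x.2⟩
  have hf : Function.Injective f := by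
    intro x y hxy
    have h1 : n • x.1 = n • y.1 := congrArg Subtype.val hxy
    have h2 : n • (x.1 - y.1) = 0 := by rw [smul_sub, sub_eq_zero]; exact h1
    exact Subtype.ext (sub_eq_zero.mp (smul_eq_zero_of_dvd hG dvd_rfl _ h2))
  let σ : Equiv.Perm {x // x ∈ D.erase 0} := Equiv.ofBijective f (Finite.injective_iff_bijective.mp hf)
  have hσ : ∀ x, (σ x).1 = n • x.1 := fun x => rfl
  have hv : ∀ g : G, (n ^ 2 + n + 1) • g = 0 := by
    intro g
    have : (Fintype.card G) • g = 0 := card_nsmul_eq_zero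
    rwa [hG] at this
  have hσ3 : σ ^ 3 ^ 1 = 1 := by
    rw [pow_one]
    ext x
    have : ((σ ^ 3) x).1 = n • (n • (n • x.1)) := by
      rw [pow_succ, pow_succ, pow_one]
      simp only [Equiv.Perm.mul_apply, hσ]
    rw [this, ← mul_smul, ← mul_smul]
    obtain ⟨m, hm⟩ : ∃ m, n = m + 1 := ⟨n - 1, by omega⟩
    have e1 : n * n * n = m * (n ^ 2 + n + 1) + 1 := by rw [hm]; ring
    rw [mul_assoc] at e1
    rw [mul_assoc, e1, add_smul, mul_smul, hv, smul_zero, zero_add, one_smul]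
    rfl
  by_contra hcon
  rw [← hc] at hcon
  obtain ⟨a, ha⟩ := Equiv.Perm.exists_fixed_point_of_prime hcon hσ3
  have ha1 : n • a.1 = a.1 := by rw [← hσ, ha]
  have ha2 := hv a.1
  rw [add_smul, add_smul, pow_two, mul_smul, ha1, ha1, one_smul] at ha2
  have ha3 : (3 : ℕ) • a.1 = 0 := by
    have e3 : (3 : ℕ) • a.1 = a.1 + a.1 + a.1 := by
      rw [show (3 : ℕ) = 1 + 1 + 1 from rfl, add_smul, add_smul, one_smul]
    exact e3.trans ha2
  have hord : addOrderOf a.1 ∣ 3 := addOrderOf_dvd_of_nsmul_eq_zero ha3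
  have hord2 : addOrderOf a.1 ∣ n ^ 2 + n + 1 := addOrderOf_dvd_of_nsmul_eq_zero (hv a.1)
  rcases (Nat.dvd_prime Nat.prime_three).mp hord with h4 | h4
  · have := AddMonoid.addOrderOf_eq_one_iff.mp h4
    exact (Finset.ne_of_mem_erase a.2) this
  · exact h3 (h4 ▸ hord2)

/-- if `3 ∣ n` and `p, p+2, 3` are multipliers, then `13` annihilates `G` -/
lemma PDS.thirteen (h : PDS D n) (hG : Fintype.card G = n ^ 2 + n + 1) (p : ℕ)
    (hp : n = p * (p + 2))
    (h1 : ∀ d ∈ D, p • d ∈ D) (h2 : ∀ d ∈ D, (p + 2) • d ∈ D) (h3 : ∀ d ∈ D, 3 • d ∈ D) (g : G) :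
    13 • g = 0 := by
  have hfix : ∀ d ∈ D, p • d = d := by
    intro d hd
    by_cases hd0 : d = 0
    · rw [hd0, smul_zero]
    · have e1 : 3 • d - d = (p + 2) • d - p • d := by
        have : 3 • d = 2 • d + d := by
          rw [show (3 : ℕ) = 2 + 1 from rfl, add_smul, one_smul]
        rw [this, add_smul]; abel
      have hne : 3 • d ≠ d := by
        intro h'
        have : 3 • d = d + d + d := by
          rw [show (3 : ℕ) = 1 + 1 + 1 from rfl, add_smul, add_smul, one_smul]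
        rw [this] at h'
        exact two_smul_ne hG d hd0 (by simpa using h')
      exact (h.uniq _ (h3 d hd) _ hd _ (h2 d hd) _ (h1 d hd) e1 hne).2.symm
  have hfixg : ∀ g : G, p • g = g := by
    intro g
    by_cases hg : g = 0
    · rw [hg, smul_zero]
    · obtain ⟨a, ha, b, hb, hab⟩ := h.ex g hg
      rw [← hab, smul_sub, hfix a ha, hfix b hb]
  have hv : (n ^ 2 + n + 1) • g = 0 := by
    have : (Fintype.card G) • g = 0 := card_nsmul_eq_zero
    rwa [hG] at this
  have hng : n • g = 3 • g := by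
    rw [hp, mul_smul, hfixg, add_smul, hfixg]
    abel
  have hn2 : (n ^ 2) • g = 9 • g := by
    rw [pow_two, mul_smul, hng, smul_comm, hng, ← mul_smul]
    norm_num
  rw [add_smul, add_smul, hng, hn2, ← add_smul, ← add_smul] at hv
  exact hv

end count

/-- `3 + 2 i` -/
def al : GaussianInt := ⟨3, 2⟩
/-- `3 - 2 i` -/
def alb : GaussianInt := ⟨3, -2⟩

lemma al_mul_alb : al * alb = 13 := by
  ext <;> simp [al, alb]

lemma star_al : star al = alb := by
  ext <;> simp [al, alb]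

lemma norm_form (a b : ℤ) : (⟨a, b⟩ : GaussianInt).norm = a ^ 2 + b ^ 2 := by
  rw [Zsqrtd.norm_def]; ring

lemma dvd13_iff (a b : ℤ) : (13 : GaussianInt) ∣ ⟨a, b⟩ ↔ (13 ∣ a ∧ 13 ∣ b) := by
  constructor
  · rintro ⟨⟨x, y⟩, h⟩
    have h' : (⟨a, b⟩ : GaussianInt) = ⟨13 * x, 13 * y⟩ := by
      rw [h]; ext <;> simp
    have := Zsqrtd.ext_iff.mp h'
    exact ⟨⟨x, this.1⟩, ⟨y, this.2⟩⟩
  · rintro ⟨⟨x, rfl⟩, ⟨y, rfl⟩⟩
    exact ⟨⟨x, y⟩, by ext <;> simp⟩

/-- one step of the factorisation -/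
lemma step (k : ℕ) (a b : ℤ) (h : a ^ 2 + b ^ 2 = 13 ^ (k + 1)) :
    (∃ w : GaussianInt, (⟨a, b⟩ : GaussianInt) = al * w) ∨
    (∃ w : GaussianInt, (⟨a, b⟩ : GaussianInt) = alb * w) := by
  have h13 : (13 : ℤ) ∣ (3 * a + 2 * b) * (3 * a - 2 * b) := by
    refine ⟨a ^ 2 - 4 * 13 ^ k, ?_⟩
    have h13' : (13 : ℤ) ^ (k + 1) = 13 * 13 ^ k := by ring
    have : b ^ 2 = 13 * 13 ^ k - a ^ 2 := by linarith
    have e : (3 * a + 2 * b) * (3 * a - 2 * b) = 9 * a ^ 2 - 4 * b ^ 2 := by ring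
    rw [e, this]; ring
  have hp : Prime (13 : ℤ) := by norm_num
  rcases hp.dvd_or_dvd h13 with h1 | h1
  · left
    obtain ⟨x, hx⟩ := h1
    have h2 : (13 : ℤ) ∣ 3 * b - 2 * a := by omega
    obtain ⟨y, hy⟩ := h2
    refine ⟨⟨x, y⟩, ?_⟩
    ext
    · simp [al]; omega
    · simp [al]; omega
  · right
    obtain ⟨x, hx⟩ := h1
    have h2 : (13 : ℤ) ∣ 3 * b + 2 * a := by omega
    obtain ⟨y, hy⟩ := h2
    refine ⟨⟨x, y⟩, ?_⟩
    ext
    · simp [alb]; omega
    · simp [alb]; omega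

lemma norm_al : al.norm = 13 := by simp [al, Zsqrtd.norm_def]
lemma norm_alb : alb.norm = 13 := by simp [alb, Zsqrtd.norm_def]

lemma fact (k : ℕ) : ∀ z : GaussianInt, z.norm = 13 ^ k → ¬ (13 : GaussianInt) ∣ z →
    ∃ u : GaussianInt, IsUnit u ∧ (z = u * al ^ k ∨ z = u * alb ^ k) := by
  induction k with
  | zero =>
    intro z hz _
    refine ⟨z, ?_, by simp⟩
    rw [← Zsqrtd.norm_eq_one_iff' (by norm_num)]
    simpa using hz
  | succ k ih =>
    rintro ⟨a, b⟩ hz h13
    rw [norm_form] at hz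
    rcases step k a b hz with ⟨w, hw⟩ | ⟨w, hw⟩
    · have hn : w.norm = 13 ^ k := by
        have : (⟨a, b⟩ : GaussianInt).norm = 13 ^ (k + 1) := by rw [norm_form, hz]
        rw [hw, Zsqrtd.norm_mul, norm_al, pow_succ] at this
        linarith
      have h13' : ¬ (13 : GaussianInt) ∣ w := fun h => h13 (by rw [hw]; exact Dvd.dvd.mul_left h _)
      obtain ⟨u, hu, h | h⟩ := ih w hn h13'
      · refine ⟨u, hu, Or.inl ?_⟩
        rw [hw, h, pow_succ]; ring
      · cases k with
        | zero =>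
          refine ⟨u, hu, Or.inl ?_⟩
          rw [hw, h]; simp [mul_comm]
        | succ k =>
          exfalso
          apply h13
          rw [hw, h, ← al_mul_alb]
          exact ⟨u * alb ^ k, by ring⟩
    · have hn : w.norm = 13 ^ k := by
        have : (⟨a, b⟩ : GaussianInt).norm = 13 ^ (k + 1) := by rw [norm_form, hz]
        rw [hw, Zsqrtd.norm_mul, norm_alb, pow_succ] at this
        linarith
      have h13' : ¬ (13 : GaussianInt) ∣ w := fun h => h13 (by rw [hw]; exact Dvd.dvd.mul_left h _)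
      obtain ⟨u, hu, h | h⟩ := ih w hn h13'
      · cases k with
        | zero =>
          refine ⟨u, hu, Or.inr ?_⟩
          rw [hw, h]; simp [mul_comm]
        | succ k =>
          exfalso
          apply h13
          rw [hw, h, ← al_mul_alb]
          exact ⟨u * al ^ k, by ring⟩
      · refine ⟨u, hu, Or.inr ?_⟩
        rw [hw, h, pow_succ]; ring

/-- `β = (3+2i)^4` -/
lemma al_four : al ^ 4 = ⟨-119, 120⟩ := by
  ext <;> simp [al, pow_succ]

/-- 2-adic shape of `β ^ j` -/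
lemma beta_odd (t : ℕ) : ∃ x y : ℤ, (al ^ 4) ^ (2 * t + 1) = ⟨1 + 8 * (2 * x + 1), 8 * y⟩ := by
  induction t with
  | zero => exact ⟨-8, 15, by rw [al_four]; ext <;> norm_num⟩
  | succ t ih =>
    obtain ⟨x, y, h⟩ := ih
    have e : (al ^ 4) ^ (2 * (t + 1) + 1) = (al ^ 4) ^ (2 * t + 1) * ((al ^ 4) * (al ^ 4)) := by
      ring
    have e2 : al ^ 4 * al ^ 4 = (⟨-239, -28560⟩ : GaussianInt) := by
      rw [al_four]; ext <;> norm_num
    rw [e, h, e2]
    refine ⟨-239 * x + 28560 * 4 * y / 8 - 135, -239 * y - 3570 * (1 + 8 * (2 * x + 1)), ?_⟩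
    ext
    · simp; omega
    · simp; ring

lemma beta_two_pow (s t : ℕ) : ∃ x y : ℤ, (al ^ 4) ^ (2 ^ s * (2 * t + 1))
    = ⟨1 + 2 ^ (s + 3) * (2 * x + 1), 2 ^ (s + 3) * y⟩ := by
  induction s with
  | zero =>
    obtain ⟨x, y, h⟩ := beta_odd t
    exact ⟨x, y, by rw [pow_zero, one_mul, h]; norm_num⟩
  | succ s ih =>
    obtain ⟨x, y, h⟩ := ih
    have e : (al ^ 4) ^ (2 ^ (s + 1) * (2 * t + 1)) =
        (al ^ 4) ^ (2 ^ s * (2 * t + 1)) * (al ^ 4) ^ (2 ^ s * (2 * t + 1)) := by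
      rw [← pow_add]; congr 1; ring
    rw [e, h]
    refine ⟨x + 2 ^ (s + 1) * ((2 * x + 1) ^ 2 - y ^ 2), y + 2 ^ (s + 3) * (2 * x + 1) * y, ?_⟩
    ext
    · simp; ring
    · simp; ring


lemma unit_cases (u : GaussianInt) (hu : IsUnit u) :
    u = ⟨1, 0⟩ ∨ u = ⟨-1, 0⟩ ∨ u = ⟨0, 1⟩ ∨ u = ⟨0, -1⟩ := by
  obtain ⟨c, d⟩ := u
  rw [← Zsqrtd.norm_eq_one_iff' (by norm_num), norm_form] at hu
  have hc : c ^ 2 ≤ 1 := by nlinarith [sq_nonneg d]
  have hd : d ^ 2 ≤ 1 := by nlinarith [sq_nonneg c]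
  have hc1 : -1 ≤ c := by nlinarith
  have hc2 : c ≤ 1 := by nlinarith
  have hd1 : -1 ≤ d := by nlinarith
  have hd2 : d ≤ 1 := by nlinarith
  interval_cases c <;> interval_cases d <;> simp_all

lemma core_neg (m : ℤ) (hm : 2 ∣ m) (j : ℕ) (hj : j ≠ 0) (u : GaussianInt) (hu : IsUnit u)
    (h : (⟨m ^ 2 - 1, m⟩ : GaussianInt) = u * al ^ (4 * j + 1)) : False := by
  obtain ⟨s, t, hst⟩ : ∃ s t : ℕ, j = 2 ^ s * (2 * t + 1) := by
    obtain ⟨s, r, hr, hs⟩ := Nat.exists_eq_two_pow_mul_odd hj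
    obtain ⟨t, ht⟩ := hr
    exact ⟨s, t, by rw [hs, ht]⟩
  obtain ⟨x, y, hxy⟩ := beta_two_pow s t
  have e : al ^ (4 * j + 1) = (al ^ 4) ^ (2 ^ s * (2 * t + 1)) * al := by
    rw [pow_succ, pow_mul, hst]
  obtain ⟨Q, hQ⟩ : ∃ Q : ℤ, Q = 2 ^ s := ⟨_, rfl⟩
  have hQpos : 0 < Q := by rw [hQ]; positivity
  have hQ8 : (2 : ℤ) ^ (s + 3) = 8 * Q := by rw [hQ]; ring
  rw [hQ8] at hxy
  have e2 : al ^ (4 * j + 1) = ⟨3 + 8 * (Q * (3 * (2 * x + 1) - 2 * y)),
      2 + 8 * (Q * (2 * (2 * x + 1) + 3 * y))⟩ := by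
    rw [e, hxy, al]
    ext
    · simp; ring
    · simp; ring
  rw [e2] at h
  obtain ⟨m', rfl⟩ := hm
  rcases unit_cases u hu with rfl | rfl | rfl | rfl
  · have h1 := Zsqrtd.ext_iff.mp h
    simp at h1
    obtain ⟨h1, h2⟩ := h1
    rw [h2] at h1
    have h3 : 8 * Q * ((2 * (2 * x + 1) + 3 * y) * (4 + 8 * Q * (2 * (2 * x + 1) + 3 * y))
        - (3 * (2 * x + 1) - 2 * y)) = 0 := by linear_combination h1
    have h4 : (2 * (2 * x + 1) + 3 * y) * (4 + 8 * Q * (2 * (2 * x + 1) + 3 * y))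
        - (3 * (2 * x + 1) - 2 * y) = 0 := by
      rcases mul_eq_zero.mp h3 with h5 | h5
      · omega
      · exact h5
    have h6 : (2 : ℤ) * ((2 * (2 * x + 1) + 3 * y) * (2 + 4 * Q * (2 * (2 * x + 1) + 3 * y))) =
        (3 * (2 * x + 1) - 2 * y) := by linear_combination h4
    omega
  · have h1 := Zsqrtd.ext_iff.mp h
    simp at h1
    obtain ⟨h1, h2⟩ := h1
    have h3 : 4 * m' ^ 2 - 1 = -(3 + 8 * (Q * (3 * (2 * x + 1) - 2 * y))) := by
      linear_combination h1
    omega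
  · have h1 := Zsqrtd.ext_iff.mp h
    simp at h1
    obtain ⟨h1, h2⟩ := h1
    omega
  · have h1 := Zsqrtd.ext_iff.mp h
    simp at h1
    obtain ⟨h1, h2⟩ := h1
    omega

/-- `m^4 - m^2 + 1 = 13^k` with `m` even forces `m^2 ≤ 4` -/
lemma phi12 (m : ℤ) (k : ℕ) (hm : 2 ∣ m) (h : m ^ 4 - m ^ 2 + 1 = 13 ^ k) : m ^ 2 ≤ 4 := by
  by_contra hcon
  push Not at hcon
  -- the residue of k mod 4
  have hk4 : k % 4 = 0 ∨ k % 4 = 1 := by
    obtain ⟨c, rfl⟩ := hm
    have h1 : (13 : ℤ) ^ k % 16 = (1 - 4 * c ^ 2) % 16 := by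
      rw [← h]
      have : (2 * c) ^ 4 - (2 * c) ^ 2 + 1 = 1 - 4 * c ^ 2 + 16 * c ^ 4 := by ring
      rw [this, Int.add_mul_emod_self_left]
    have h2 : (13 : ℤ) ^ k % 16 = 13 ^ (k % 4) % 16 := by
      conv_lhs => rw [← Nat.div_add_mod k 4, pow_add, pow_mul]
      rw [Int.mul_emod]
      have : ((13 : ℤ) ^ 4) ^ (k / 4) % 16 = 1 := by
        rw [Int.emod_emod_of_dvd _ (dvd_refl _) |>.symm]
        have h5 : ((13 : ℤ) ^ 4) ^ (k / 4) ≡ 1 ^ (k / 4) [ZMOD 16] :=
          Int.ModEq.pow _ (by decide)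
        rw [one_pow] at h5
        rw [Int.emod_emod_of_dvd _ (dvd_refl _)]
        exact h5
      rw [this, one_mul]
      omega
    rw [h2] at h1
    have hc : c ^ 2 % 4 = 0 ∨ c ^ 2 % 4 = 1 := by
      rcases Int.emod_two_eq_zero_or_one c with h3 | h3
      · left
        obtain ⟨e, he⟩ : ∃ e, c = 2 * e := ⟨c / 2, by omega⟩
        have : c ^ 2 = 4 * e ^ 2 := by rw [he]; ring
        omega
      · right
        obtain ⟨e, he⟩ : ∃ e, c = 2 * e + 1 := ⟨c / 2, by omega⟩
        have : c ^ 2 = 4 * (e ^ 2 + e) + 1 := by rw [he]; ring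
        omega
    have h6 : k % 4 < 4 := Nat.mod_lt _ (by norm_num)
    interval_cases hk : k % 4
    · left; rfl
    · right; rfl
    · exfalso; norm_num at h1; omega
    · exfalso; norm_num at h1; omega
  rcases hk4 with hk4 | hk4
  · -- k even
    obtain ⟨l, hl⟩ : ∃ l, k = 2 * l := ⟨k / 2, by omega⟩
    have h1 : m ^ 4 - m ^ 2 + 1 = ((13 : ℤ) ^ l) ^ 2 := by rw [h, hl, pow_mul, ← pow_mul, mul_comm, pow_mul]
    have h13 : (0 : ℤ) < 13 ^ l := by positivity
    have h2 : (13 : ℤ) ^ l < m ^ 2 := by nlinarith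
    have h3 : m ^ 2 - 1 < (13 : ℤ) ^ l := by nlinarith
    omega
  · obtain ⟨j, hj⟩ : ∃ j, k = 4 * j + 1 := ⟨k / 4, by omega⟩
    by_cases hj0 : j = 0
    · rw [hj, hj0] at h
      norm_num at h
      nlinarith
    · have hz : (⟨m ^ 2 - 1, m⟩ : GaussianInt).norm = 13 ^ k := by
        rw [norm_form, ← h]; ring
      have h13 : ¬ (13 : GaussianInt) ∣ ⟨m ^ 2 - 1, m⟩ := by
        rw [dvd13_iff]
        rintro ⟨h1, h2⟩
        have h3 : (13 : ℤ) ∣ m ^ 2 := by rw [pow_two]; exact Dvd.dvd.mul_left h2 _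
        have h4 : (13 : ℤ) ∣ 1 := by
          have := dvd_sub h3 h1
          simpa using this
        norm_num at h4
      obtain ⟨u, hu, h1 | h1⟩ := fact k _ hz h13
      · rw [hj] at h1
        exact core_neg m hm j hj0 u hu h1
      · have h2 : (⟨(-m) ^ 2 - 1, -m⟩ : GaussianInt) = star u * al ^ (4 * j + 1) := by
          have h3 : (⟨(-m) ^ 2 - 1, -m⟩ : GaussianInt) = star (⟨m ^ 2 - 1, m⟩ : GaussianInt) := by
            ext <;> simp
          rw [h3, h1, star_mul', star_pow, ← star_al, star_star, hj]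
        exact core_neg (-m) (by rwa [dvd_neg]) j hj0 (star u) hu.star h2


lemma IsPlanarDifferenceSet.pds {G : Type*} [AddCommGroup G] {D : Finset G} {n : ℕ}
    (h : IsPlanarDifferenceSet D n) : PDS D n := by
  obtain ⟨h1, h2⟩ := h
  refine ⟨h1, ?_, ?_⟩
  · intro g hg
    obtain ⟨x, hx, _⟩ := h2 g hg
    exact ⟨x.1, hx.1, x.2, hx.2.1, hx.2.2⟩
  · intro a ha b hb c hc d hd habcd hne
    obtain ⟨x, _, hx⟩ := h2 (a - b) (sub_ne_zero.mpr hne)
    have e1 := hx (a, b) ⟨ha, hb, rfl⟩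
    have e2 := hx (c, d) ⟨hc, hd, habcd.symm⟩
    have e3 : (a, b) = (c, d) := e1.trans e2.symm
    exact ⟨(Prod.mk.inj e3).1, (Prod.mk.inj e3).2⟩

/-- For every odd `s ≥ 3` (in particular for every odd prime), no finite abelian group contains a
planar difference set of order `n = s (s + 2)`. -/
theorem result {s : ℕ} (hs : Odd s) (hs3 : 3 ≤ s) {G : Type*} [AddCommGroup G] [Fintype G]
    (hG : Fintype.card G = (s * (s + 2)) ^ 2 + s * (s + 2) + 1) :
    ¬ ∃ D : Finset G, IsPlanarDifferenceSet D (s * (s + 2)) := by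
  classical
  rintro ⟨D₀, hD₀⟩
  obtain ⟨n, hn⟩ : ∃ n, n = s * (s + 2) := ⟨_, rfl⟩
  rw [← hn] at hG hD₀
  obtain ⟨D, hD, hsum⟩ := hD₀.pds.normalise hG
  have hn15 : 15 ≤ n := by rw [hn]; nlinarith
  have hnpos : 0 < n := by omega
  have hodd : n % 2 = 1 := by
    rw [hn, ← Nat.odd_iff]
    exact hs.mul (hs.add_even (by decide))
  have h1 : ∀ d ∈ D, s • d ∈ D := hD.fixed_dvd hsum hnpos hG s ⟨s + 2, hn⟩
  have h2 : ∀ d ∈ D, (s + 2) • d ∈ D :=
    hD.fixed_dvd hsum hnpos hG (s + 2) ⟨s, by rw [hn]; ring⟩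
  have hz : (0 : G) ∈ D := hD.zero_mem hodd (by omega) hG s ⟨s + 2, hn⟩ h1 h2
  have h3v : ¬ 3 ∣ n ^ 2 + n + 1 := by
    rw [hn]
    intro h3
    have h4 : (s * (s + 2)) % 3 = 0 ∨ (s * (s + 2)) % 3 = 2 := by
      have : s % 3 = 0 ∨ s % 3 = 1 ∨ s % 3 = 2 := by omega
      rcases this with h | h | h <;> simp [Nat.mul_mod, Nat.add_mod, h]
    have h5 : ((s * (s + 2)) ^ 2 + s * (s + 2) + 1) % 3 = 0 := Nat.mod_eq_zero_of_dvd h3
    rcases h4 with h | h <;> simp [Nat.add_mod, Nat.pow_mod, h] at h5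
  have h3n : 3 ∣ n := hD.three_dvd hnpos hG h3v hz (hD.fixed_dvd hsum hnpos hG n dvd_rfl)
  have h3 : ∀ d ∈ D, 3 • d ∈ D := hD.fixed_dvd hsum hnpos hG 3 h3n
  have h13 : ∀ g : G, 13 • g = 0 := hD.thirteen hG s hn h1 h2 h3
  have hcard : ∃ k, Fintype.card G = 13 ^ k := by
    refine ⟨_, Nat.eq_prime_pow_of_unique_prime_dvd (p := 13) Fintype.card_ne_zero ?_⟩
    intro q hq hqd
    have : Fact q.Prime := ⟨hq⟩
    obtain ⟨x, hx⟩ := exists_prime_addOrderOf_dvd_card q hqd
    have h4 : addOrderOf x ∣ 13 := addOrderOf_dvd_of_nsmul_eq_zero (h13 x)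
    rw [hx] at h4
    exact (Nat.prime_dvd_prime_iff_eq hq (by norm_num)).mp h4
  obtain ⟨k, hk⟩ := hcard
  have h4 := phi12 ((s : ℤ) + 1) k (by obtain ⟨t, ht⟩ := hs; exact ⟨(t : ℤ) + 1, by rw [ht]; push_cast; ring⟩)
    (by
      have e1 : ((Fintype.card G : ℕ) : ℤ) = (13 : ℤ) ^ k := by rw [hk]; push_cast; rfl
      rw [← e1, hG, hn]; push_cast; ring)
  have h5 : (3 : ℤ) ≤ s := by exact_mod_cast hs3
  nlinarith

end Pool.Agent.Results.MP_104832_co.NoOrder
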